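import Pool.Agent.W361.LQ.Stm

/-!
# Project LQ: the low₂ condition (`S_LOW2`)
-/

set_option autoImplicit false

namespace Pool.Agent.W917.LQ.Low2

open Pool.Agent.Helper227 Pool.Agent.H685R3 Pool.Agent.W361.LQ
open Pool.Agent.W952.LP (zero S_sig2)

/-- Normal form of the predicates computably enumerable in the second jump. -/
theorem nf (hsig : S_sig2) {p : ℕ → Prop} (hp : SI (jump (jump zero)) p) :
    ∃ S : ℕ → ℕ, Computable S ∧ ∀ n, p n ↔
      ∃ a : ℕ, ∀ b : ℕ, ∃ c : ℕ, S (Nat.pair n (Nat.pair a (Nat.pair b c))) = 0 := by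
  obtain ⟨h, hh, eh⟩ := hp.to_jump
  obtain ⟨R1, hR1, e1⟩ := hsig (jump zero)
  have h2 : SI (jump zero) fun x : ℕ => R1 x = false :=
    (tLe_iff_SI.1 hR1).comp (f := fun x : ℕ => (x, false)) (Primrec.id.pair (Primrec.const false))
  obtain ⟨h1, hh1, eh1⟩ := h2.to_jump
  obtain ⟨R0, hR0, e0⟩ := hsig zero
  have hR0c : Computable fun n => (R0 n).toNat := by
    have h0 : TuringReducible (fun n => Part.some (R0 n).toNat) (fun _ : ℕ => Part.some 0) := hR0
    exact TuringReducible.partrec_of_const h0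
  -- the decomposition of the argument
  let N : ℕ → ℕ := fun x => x.unpair.1
  let A : ℕ → ℕ := fun x => x.unpair.2.unpair.1
  let B : ℕ → ℕ := fun x => x.unpair.2.unpair.2.unpair.1
  let C : ℕ → ℕ := fun x => x.unpair.2.unpair.2.unpair.2
  have pN : Primrec N := Primrec.fst.comp Primrec.unpair
  have p2 : Primrec fun x : ℕ => x.unpair.2 := Primrec.snd.comp Primrec.unpair
  have pA : Primrec A := pN.comp p2
  have pB : Primrec B := pA.comp p2
  have pC : Primrec C := p2.comp (p2.comp p2)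
  let q : ℕ → ℕ := fun x => Nat.pair (h (N x)) (Nat.pair (A x) (N (B x)))
  have hq : Computable q :=
    Primrec₂.natPair.to_comp.comp (hh.comp pN.to_comp)
      (Primrec₂.natPair.comp pA (pN.comp pB)).to_comp
  let r : ℕ → ℕ := fun x => Nat.pair (h1 (q x)) (Nat.pair (B x).unpair.2 (C x))
  have hr : Computable r :=
    Primrec₂.natPair.to_comp.comp (hh1.comp hq)
      (Primrec₂.natPair.comp (p2.comp pB) pC).to_comp
  refine ⟨fun x => (R0 (r x)).toNat, hR0c.comp hr, fun n => ?_⟩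
  rw [eh, e1]
  refine exists_congr fun a => ?_
  have key : ∀ b : ℕ, (R1 (Nat.pair (h n) (Nat.pair a b)) = true) ↔
      ∀ u : ℕ, ∃ v : ℕ, R0 (Nat.pair (h1 (Nat.pair (h n) (Nat.pair a b))) (Nat.pair u v)) = false := by
    intro b
    have h3 := eh1 (Nat.pair (h n) (Nat.pair a b))
    rw [e0] at h3
    have h4 : (R1 (Nat.pair (h n) (Nat.pair a b)) = true) ↔
        ¬ (R1 (Nat.pair (h n) (Nat.pair a b)) = false) := by simp
    rw [h4, h3]
    push Not
    simp
  constructor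
  · intro H b
    obtain ⟨v, hv⟩ := (key b.unpair.1).1 (H b.unpair.1) b.unpair.2
    refine ⟨v, ?_⟩
    simp only [r, q, N, A, B, C, Nat.unpair_pair]
    rw [hv]
    rfl
  · intro H b
    refine (key b).2 fun u => ?_
    obtain ⟨v, hv⟩ := H (Nat.pair b u)
    refine ⟨v, ?_⟩
    simp only [r, q, N, A, B, C, Nat.unpair_pair] at hv
    cases h5 : R0 (Nat.pair (h1 (Nat.pair (h n) (Nat.pair a b))) (Nat.pair u v)) with
    | false => rfl
    | true => rw [h5] at hv; simp at hv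

/-- LQ-LOW2. -/
theorem main (hsig : Pool.Agent.W952.LP.S_sig2) : S_LOW2 := by
  intro D hD R hR
  have hR' : SI D fun x : ℕ × ℕ => x.2 = R x.1 := by
    have h0 : RecursiveIn {chi D} (fun m => Part.some (R m)) := hR
    exact (SI.iff_recIn.1 h0).of_eq fun x => by simp
  have hz : SI D fun m : ℕ => R m ≠ 0 := by
    have h1 : SI D fun m : ℕ => ∃ y : ℕ, y ≠ 0 ∧ y = R m := by
      refine SI.ex (p := fun (m y : ℕ) => y ≠ 0 ∧ y = R m) (SI.and (SI.of_prim ?_) ?_)
      · exact (Primrec.eq.comp Primrec.snd (Primrec.const 0)).not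
      · exact hR'
    exact h1.of_eq fun m => by simp
  have h1 : SI D fun x : ℕ × ℕ => ∃ b : ℕ, R (Nat.pair x.1 (Nat.pair x.2 b)) ≠ 0 := by
    refine SI.ex (p := fun (x : ℕ × ℕ) (b : ℕ) => R (Nat.pair x.1 (Nat.pair x.2 b)) ≠ 0) ?_
    exact hz.comp (f := fun y : (ℕ × ℕ) × ℕ => Nat.pair y.1.1 (Nat.pair y.1.2 y.2))
      (Primrec₂.natPair.comp (Primrec.fst.comp Primrec.fst)
        (Primrec₂.natPair.comp (Primrec.snd.comp Primrec.fst) Primrec.snd))
  have h2 : SI (jump D) fun x : ℕ × ℕ => ∀ b : ℕ, R (Nat.pair x.1 (Nat.pair x.2 b)) = 0 :=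
    h1.decide_jump.2.of_eq fun x => by push Not; rfl
  have h3 : SI (jump D) fun n : ℕ => ∃ a : ℕ, ∀ b : ℕ, R (Nat.pair n (Nat.pair a b)) = 0 :=
    SI.ex (p := fun (n a : ℕ) => ∀ b : ℕ, R (Nat.pair n (Nat.pair a b)) = 0) h2
  obtain ⟨h4, h5⟩ := h3.decide_jump
  obtain ⟨S, hS, eS⟩ := nf hsig (h4.trans hD)
  obtain ⟨T, hT, eT⟩ := nf hsig (h5.trans hD)
  exact ⟨S, T, hS, hT, fun n => ⟨eS n, eT n⟩⟩

end Pool.Agent.W917.LQ.Low2
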